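import Mathlib

/-!
The local lemma of the general degree bound: if `∑ U_c(x) B_c(y)` is a nonzero multiple of
`β^(p+1)`, `β = x_0 + ∑ x_l y_l`, then the derivatives of `U` of order at most `p` span, together
with `e0`, a space of dimension at least `1 + (p + m).choose m` at some point.
-/

namespace Helper64.DG

open MvPolynomial

/-- Polynomials in `x_0, ..., x_m` and `y_1, ..., y_m`. -/
abbrev SS (m : ℕ) := MvPolynomial (Fin (m + 1) ⊕ Fin m) ℂ

/-- `Y_0 = 1`, `Y_l = y_l`. -/
noncomputable def YY {m : ℕ} : Fin (m + 1) → MvPolynomial (Fin m) ℂ := Fin.cons 1 X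

/-- `β = x_0 + ∑ x_l y_l`. -/
noncomputable def beta (m : ℕ) : SS m := ∑ i, X (Sum.inl i) * rename Sum.inr (YY i)

/-- Iterated derivation. -/
def dw {A τ : Type*} (D : τ → A → A) (l : List τ) (F : A) : A := l.foldl (fun F i => D i F) F

@[simp] lemma dw_nil {A τ : Type*} (D : τ → A → A) (F : A) : dw D [] F = F := rfl

@[simp] lemma dw_cons {A τ : Type*} (D : τ → A → A) (i : τ) (l : List τ) (F : A) :
    dw D (i :: l) F = dw D l (D i F) := rfl

/-- Derivatives in `x` on `SS m`. -/
noncomputable def dS {m : ℕ} (i : Fin (m + 1)) (F : SS m) : SS m := pderiv (Sum.inl i) F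

/-- Derivatives in `x`. -/
noncomputable def dX {m : ℕ} (i : Fin (m + 1)) (F : MvPolynomial (Fin (m + 1)) ℂ) :
    MvPolynomial (Fin (m + 1)) ℂ := pderiv i F

lemma dS_inr {m : ℕ} (i : Fin (m + 1)) (p : MvPolynomial (Fin m) ℂ) :
    dS i (rename Sum.inr p) = 0 := by
  classical
  apply pderiv_eq_zero_of_notMem_vars
  intro h
  have := vars_rename (Sum.inr : Fin m → Fin (m + 1) ⊕ Fin m) p h
  simp at this

lemma dS_inl {m : ℕ} (i : Fin (m + 1)) (p : MvPolynomial (Fin (m + 1)) ℂ) :
    dS i (rename Sum.inl p : SS m) = rename Sum.inl (dX i p) :=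
  pderiv_rename Sum.inl_injective i p

lemma dS_beta {m : ℕ} (i : Fin (m + 1)) : dS i (beta m) = rename Sum.inr (YY i) := by
  classical
  unfold beta dS
  rw [map_sum, Finset.sum_eq_single i]
  · rw [pderiv_mul, pderiv_X_self, one_mul]
    have := dS_inr i (YY i)
    unfold dS at this
    rw [this, mul_zero, add_zero]
  · intro j _ hj
    rw [pderiv_mul]
    have := dS_inr i (YY j)
    unfold dS at this
    rw [this, mul_zero, add_zero, pderiv_X_of_ne (by simpa using hj), zero_mul]
  · simp

lemma dS_mul {m : ℕ} (i : Fin (m + 1)) (F G : SS m) : dS i (F * G) = dS i F * G + F * dS i G := by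
  unfold dS
  rw [pderiv_mul]

lemma dS_beta_pow {m : ℕ} (i : Fin (m + 1)) (q : ℕ) (χ : SS m) :
    dS i (beta m ^ (q + 1) * χ) = beta m ^ q *
      (C ((q + 1 : ℕ) : ℂ) * rename Sum.inr (YY i) * χ + beta m * dS i χ) := by
  rw [dS_mul]
  have h : dS i (beta m ^ (q + 1)) = C ((q + 1 : ℕ) : ℂ) * beta m ^ q * rename Sum.inr (YY i) := by
    unfold dS
    rw [pderiv_pow]
    have := dS_beta i
    unfold dS at this
    rw [this, Nat.add_sub_cancel, map_natCast]
  rw [h, pow_succ]
  ring

lemma dw_beta_pow {m : ℕ} : ∀ (l : List (Fin (m + 1))) (q : ℕ) (χ : SS m), l.length ≤ q →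
    ∃ R, dw dS l (beta m ^ q * χ) = beta m ^ (q - l.length) *
      (C ((q.descFactorial l.length : ℕ) : ℂ) * rename Sum.inr (l.map YY).prod * χ +
        beta m * R) := by
  intro l
  induction l with
  | nil =>
    intro q χ _
    exact ⟨0, by simp⟩
  | cons i l ih =>
    intro q χ hq
    obtain ⟨q, rfl⟩ : ∃ q', q = q' + 1 := ⟨q - 1, by simp at hq; omega⟩
    obtain ⟨R, hR⟩ := ih q (C ((q + 1 : ℕ) : ℂ) * rename Sum.inr (YY i) * χ + beta m * dS i χ)
      (by simpa using hq)
    refine ⟨C ((q.descFactorial l.length : ℕ) : ℂ) * rename Sum.inr (l.map YY).prod * dS i χ + R, ?_⟩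
    rw [dw_cons, dS_beta_pow, hR, List.length_cons, Nat.succ_descFactorial_succ, List.map_cons,
      List.prod_cons, Nat.succ_sub_succ, map_mul]
    push_cast
    simp only [map_mul]
    ring

lemma dw_pair {m : ℕ} {ι : Type*} [Fintype ι] (B0 : ι → MvPolynomial (Fin m) ℂ) :
    ∀ (l : List (Fin (m + 1))) (U : ι → MvPolynomial (Fin (m + 1)) ℂ),
      dw dS l (∑ c, rename Sum.inl (U c) * rename Sum.inr (B0 c) : SS m)
        = ∑ c, rename Sum.inl (dw dX l (U c)) * rename Sum.inr (B0 c) := by
  intro l
  induction l with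
  | nil => intro U; rfl
  | cons i l ih =>
    intro U
    rw [dw_cons]
    have h : dS i (∑ c, rename Sum.inl (U c) * rename Sum.inr (B0 c) : SS m)
        = ∑ c, rename Sum.inl (dX i (U c)) * rename Sum.inr (B0 c) := by
      have h1 : dS i (∑ c, rename Sum.inl (U c) * rename Sum.inr (B0 c) : SS m)
          = ∑ c, dS i (rename Sum.inl (U c) * rename Sum.inr (B0 c) : SS m) := by
        unfold dS
        rw [map_sum]
      rw [h1]
      refine Finset.sum_congr rfl fun c _ => ?_
      rw [dS_mul, dS_inr, mul_zero, add_zero, dS_inl]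
    rw [h, ih]
    rfl

/-- Substitution of a number vector for the first group of variables. -/
noncomputable def subx {m : ℕ} (x : Fin (m + 1) → ℂ) : SS m →ₐ[ℂ] MvPolynomial (Fin m) ℂ :=
  aeval (Sum.elim (fun i => C (x i)) X)

lemma eval_subx {m : ℕ} (x : Fin (m + 1) → ℂ) (y : Fin m → ℂ) (p : SS m) :
    eval y (subx x p) = eval (Sum.elim x y) p := by
  have h : (eval y).comp (subx x).toRingHom = eval (Sum.elim x y) := by
    apply ringHom_ext
    · intro a
      simp [subx]
    · intro i
      rcases i with i | i <;> simp [subx]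
  exact congrArg (fun F => F p) h

lemma subx_rename_inl {m : ℕ} (x : Fin (m + 1) → ℂ) (p : MvPolynomial (Fin (m + 1)) ℂ) :
    subx x (rename Sum.inl p) = C (eval x p) := by
  apply MvPolynomial.funext
  intro y
  rw [eval_subx, eval_rename, eval_C]
  rfl

lemma subx_rename_inr {m : ℕ} (x : Fin (m + 1) → ℂ) (p : MvPolynomial (Fin m) ℂ) :
    subx x (rename Sum.inr p) = p := by
  apply MvPolynomial.funext
  intro y
  rw [eval_subx, eval_rename]
  rfl

lemma subx_beta {m : ℕ} (x : Fin (m + 1) → ℂ) : subx x (beta m) = ∑ i, C (x i) * YY i := by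
  unfold beta
  rw [map_sum]
  refine Finset.sum_congr rfl fun i _ => ?_
  rw [map_mul, subx_rename_inr]
  congr 1
  simp [subx]

/-- The elimination of `x_0`. -/
noncomputable def el0 (m : ℕ) : SS m →ₐ[ℂ] SS m :=
  aeval (Sum.elim (Fin.cons (-∑ l : Fin m, X (Sum.inl l.succ) * X (Sum.inr l))
    (fun l => X (Sum.inl l.succ))) (fun l => X (Sum.inr l)))

lemma beta_eq (m : ℕ) : beta m = X (Sum.inl 0) + ∑ l : Fin m, X (Sum.inl l.succ) * X (Sum.inr l) := by
  unfold beta YY
  rw [Fin.sum_univ_succ]
  simp

lemma dvd_sub_el0 {m : ℕ} (p : SS m) : beta m ∣ p - el0 m p := by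
  induction p using MvPolynomial.induction_on with
  | C a => simp [el0]
  | add p q hp hq =>
    rw [map_add, add_sub_add_comm]
    exact dvd_add hp hq
  | mul_X p j hp =>
    have h : beta m ∣ X j - el0 m (X j) := by
      rcases j with j | j
      · refine Fin.cases ?_ (fun l => ?_) j
        · have : X (Sum.inl 0) - el0 m (X (Sum.inl 0)) = beta m := by
            rw [beta_eq]
            simp [el0]
          rw [this]
        · simp [el0]
      · simp [el0]
    have e : p * X j - el0 m (p * X j) = (p - el0 m p) * X j + el0 m p * (X j - el0 m (X j)) := by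
      rw [map_mul]
      ring
    rw [e]
    exact dvd_add (hp.mul_right _) (h.mul_left _)

lemma eval_el0 {m : ℕ} (x : Fin (m + 1) → ℂ) (y : Fin m → ℂ) (p : SS m) :
    eval (Sum.elim x y) (el0 m p)
      = eval (Sum.elim (Fin.cons (-∑ l : Fin m, x l.succ * y l) (fun l => x l.succ)) y) p := by
  have h : (eval (Sum.elim x y)).comp (el0 m).toRingHom
      = eval (Sum.elim (Fin.cons (-∑ l : Fin m, x l.succ * y l) (fun l => x l.succ)) y) := by
    apply ringHom_ext
    · intro a
      simp [el0]
    · intro i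
      rcases i with i | i
      · refine Fin.cases ?_ (fun l => ?_) i
        · simp [el0]
        · simp [el0]
      · simp [el0]
  exact congrArg (fun F => F p) h

/-- A good point. -/
lemma exists_good {m : ℕ} (i0 : Fin m) {χ : SS m} (h : ¬ beta m ∣ χ) :
    ∃ (x : Fin (m + 1) → ℂ) (y : Fin m → ℂ), x i0.succ ≠ 0 ∧ x 0 + ∑ l : Fin m, x l.succ * y l = 0 ∧
      eval (Sum.elim x y) χ ≠ 0 := by
  have h0 : el0 m χ * X (Sum.inl i0.succ) ≠ 0 := by
    refine mul_ne_zero (fun h1 => h ?_) (X_ne_zero _)
    have := dvd_sub_el0 χ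
    rwa [h1, sub_zero] at this
  obtain ⟨v, hv⟩ : ∃ v, eval v (el0 m χ * X (Sum.inl i0.succ)) ≠ 0 := by
    by_contra hcon
    push Not at hcon
    exact h0 (MvPolynomial.funext fun v => by rw [hcon v, map_zero])
  have hve : v = Sum.elim (fun i => v (Sum.inl i)) (fun i => v (Sum.inr i)) := by
    funext i
    rcases i with i | i <;> rfl
  rw [hve, map_mul, eval_el0, eval_X] at hv
  refine ⟨_, _, ?_, ?_, left_ne_zero_of_mul hv⟩
  · rw [Fin.cons_succ]
    exact right_ne_zero_of_mul hv
  · simp only [Fin.cons_zero, Fin.cons_succ]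
    ring

/-! ### Elimination of the last `y` variable and monomials -/

/-- `b = x_0 + ∑ x_l y_l` for a number vector `x`. -/
noncomputable def bx {m : ℕ} (x : Fin (m + 1) → ℂ) : MvPolynomial (Fin m) ℂ := ∑ i, C (x i) * YY i

/-- Elimination of the last variable on the hyperplane `b = 0`. -/
noncomputable def elL {m : ℕ} (x : Fin (m + 2) → ℂ) :
    MvPolynomial (Fin (m + 1)) ℂ →ₐ[ℂ] MvPolynomial (Fin (m + 1)) ℂ :=
  aeval (Fin.snoc (α := fun _ => MvPolynomial (Fin (m + 1)) ℂ) (fun l : Fin m => X l.castSucc)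
    (-(C (x (Fin.last _))⁻¹ * ∑ i : Fin (m + 1), C (x i.castSucc) * YY i.castSucc)))

lemma YY_last {m : ℕ} : (YY (Fin.last (m + 1)) : MvPolynomial (Fin (m + 1)) ℂ) = X (Fin.last m) := by
  rw [← Fin.succ_last]
  rfl

lemma elL_YY {m : ℕ} (x : Fin (m + 2) → ℂ) (i : Fin (m + 1)) :
    elL x (YY i.castSucc) = YY i.castSucc := by
  refine Fin.cases ?_ (fun j => ?_) i
  · have : (YY (Fin.castSucc 0) : MvPolynomial (Fin (m + 1)) ℂ) = 1 := rfl
    rw [this, map_one]
  · have : (YY (Fin.castSucc j.succ) : MvPolynomial (Fin (m + 1)) ℂ) = X j.castSucc := by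
      rw [← Fin.succ_castSucc]
      rfl
    rw [this, elL, aeval_X, Fin.snoc_castSucc]

lemma elL_bx {m : ℕ} {x : Fin (m + 2) → ℂ} (hx : x (Fin.last _) ≠ 0) : elL x (bx x) = 0 := by
  unfold bx
  rw [Fin.sum_univ_castSucc, map_add, map_sum]
  simp only [map_mul, elL_YY]
  rw [YY_last]
  have h1 : ∀ a : ℂ, elL x (C a) = C a := fun a => by
    rw [elL, aeval_C]
    rfl
  simp only [h1]
  have h2 : elL x (X (Fin.last m)) =
      -(C (x (Fin.last _))⁻¹ * ∑ i : Fin (m + 1), C (x i.castSucc) * YY i.castSucc) := by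
    rw [elL, aeval_X, Fin.snoc_last]
  rw [h2, mul_neg, ← mul_assoc, ← C_mul, mul_inv_cancel₀ hx, C_1, one_mul, add_neg_cancel]

lemma eval_bx {m : ℕ} (x : Fin (m + 1) → ℂ) (y : Fin m → ℂ) :
    eval y (bx x) = x 0 + ∑ l : Fin m, x l.succ * y l := by
  unfold bx YY
  rw [Fin.sum_univ_succ]
  simp

lemma eval_elL {m : ℕ} {x : Fin (m + 2) → ℂ} (hx : x (Fin.last _) ≠ 0) {y : Fin (m + 1) → ℂ}
    (hy : x 0 + ∑ l : Fin (m + 1), x l.succ * y l = 0) (g : MvPolynomial (Fin (m + 1)) ℂ) :
    eval y (elL x g) = eval y g := by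
  have h : (eval y).comp (elL x).toRingHom = eval y := by
    apply ringHom_ext
    · intro a
      simp [elL]
    · intro i
      refine Fin.lastCases ?_ (fun j => ?_) i
      · have h1 := elL_bx hx
        have h2 := congrArg (eval y) h1
        unfold bx at h2
        have h3 := eval_bx x y
        rw [hy] at h3
        unfold bx at h3
        rw [Fin.sum_univ_castSucc, map_add, map_sum] at h3 h2
        have h4 : ∀ i : Fin (m + 1), eval y (C (x i.castSucc) * YY i.castSucc)
            = eval y (elL x (C (x i.castSucc) * YY i.castSucc)) := by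
          intro i
          rw [map_mul (elL x), elL_YY]
          congr 2
          rw [elL, aeval_C]
          rfl
        simp only [h4] at h3
        rw [map_add, map_zero, map_sum] at h2
        have h5 : eval y (C (x (Fin.last (m + 1))) * YY (Fin.last (m + 1)))
            = eval y (elL x (C (x (Fin.last (m + 1))) * YY (Fin.last (m + 1)))) := by
          linear_combination h3 - h2
        rw [YY_last, map_mul, map_mul, map_mul] at h5
        have h6 : eval y (elL x (C (x (Fin.last (m + 1))))) = x (Fin.last (m + 1)) := by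
          rw [elL, aeval_C]
          simp
        rw [h6, eval_C] at h5
        exact (mul_left_cancel₀ hx h5).symm
      · change eval y (elL x (X j.castSucc)) = _
        rw [elL, aeval_X, Fin.snoc_castSucc]
  exact congrArg (fun F => F g) h

/-- The exponent of the monomial of a word. -/
noncomputable def ex {m : ℕ} (l : List (Fin (m + 1))) : Fin m →₀ ℕ :=
  Finsupp.equivFunOnFinite.symm fun j => l.count j.succ

lemma prod_YY {m : ℕ} (l : List (Fin (m + 1))) : (l.map YY).prod = monomial (ex l) (1 : ℂ) := by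
  induction l with
  | nil =>
    have : ex ([] : List (Fin (m + 1))) = 0 := by
      ext j
      simp [ex]
    rw [this]
    rfl
  | cons i l ih =>
    rw [List.map_cons, List.prod_cons, ih]
    refine Fin.cases ?_ (fun j => ?_) i
    · have h1 : (YY 0 : MvPolynomial (Fin m) ℂ) = 1 := rfl
      have h2 : ex ((0 : Fin (m + 1)) :: l) = ex l := by
        ext k
        have : (0 : Fin (m + 1)) ≠ k.succ := (Fin.succ_ne_zero k).symm
        simp [ex, List.count_cons, this]
      rw [h1, one_mul, h2]
    · have h1 : (YY j.succ : MvPolynomial (Fin m) ℂ) = X j := rfl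
      have h2 : ex (j.succ :: l) = Finsupp.single j 1 + ex l := by
        ext k
        simp only [ex, Finsupp.equivFunOnFinite_symm_apply_apply, List.count_cons, Finsupp.add_apply,
          Finsupp.single_apply]
        by_cases hjk : j = k
        · subst hjk
          simp [add_comm]
        · have : ¬ (j.succ = k.succ) := fun h => hjk (Fin.succ_injective _ h)
          simp [hjk]
      rw [h1, h2, X, monomial_mul, one_mul]

/-- The word of a multiset: the last letter is omitted. -/
noncomputable def wd {m p : ℕ} (s : Sym (Fin (m + 1)) p) : List (Fin (m + 1)) :=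
  ((s : Multiset (Fin (m + 1))).filter (fun i => i ≠ Fin.last m)).toList

lemma wd_length {m p : ℕ} (s : Sym (Fin (m + 1)) p) : (wd s).length ≤ p := by
  unfold wd
  rw [Multiset.length_toList]
  have h1 := Multiset.card_le_card (Multiset.filter_le (fun i => i ≠ Fin.last m)
    (s : Multiset (Fin (m + 1))))
  rwa [Sym.card_coe] at h1

lemma wd_ne_last {m p : ℕ} (s : Sym (Fin (m + 1)) p) : ∀ i ∈ wd s, i ≠ Fin.last m := by
  intro i hi
  unfold wd at hi
  rw [Multiset.mem_toList, Multiset.mem_filter] at hi
  exact hi.2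

lemma wd_inj {m p : ℕ} {s s' : Sym (Fin (m + 1)) p} (hl : (wd s).length = (wd s').length)
    (he : ex (wd s) = ex (wd s')) : s = s' := by
  classical
  set F := (s : Multiset (Fin (m + 1))).filter (fun i => i ≠ Fin.last m) with hF
  set F' := (s' : Multiset (Fin (m + 1))).filter (fun i => i ≠ Fin.last m) with hF'
  have hc : ∀ j : Fin m, F.count j.succ = F'.count j.succ := by
    intro j
    have h1 := congrArg (fun f => f j) he
    simp only [ex, Finsupp.equivFunOnFinite_symm_apply_apply] at h1
    unfold wd at h1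
    rw [← Multiset.coe_count, ← Multiset.coe_count, Multiset.coe_toList, Multiset.coe_toList] at h1
    exact h1
  have hcard : Multiset.card F = Multiset.card F' := by
    unfold wd at hl
    rwa [Multiset.length_toList, Multiset.length_toList] at hl
  have hsum : ∀ G : Multiset (Fin (m + 1)), Multiset.card G
      = G.count 0 + ∑ j : Fin m, G.count j.succ := by
    intro G
    rw [← Fin.sum_univ_succ (fun i => G.count i)]
    exact (Multiset.sum_count_eq_card (fun a _ => Finset.mem_univ a)).symm
  have h0 : F.count 0 = F'.count 0 := by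
    rw [hsum F, hsum F', Finset.sum_congr rfl fun j _ => hc j] at hcard
    omega
  have hFF : F = F' := by
    ext i
    refine Fin.cases h0 (fun j => hc j) i
  have hdec : ∀ t : Sym (Fin (m + 1)) p, (t : Multiset (Fin (m + 1)))
      = (t : Multiset (Fin (m + 1))).filter (fun i => i ≠ Fin.last m) +
        Multiset.replicate ((t : Multiset (Fin (m + 1))).count (Fin.last m)) (Fin.last m) := by
    intro t
    rw [← Multiset.filter_eq']
    have h1 := Multiset.filter_add_not (fun i => i ≠ Fin.last m) (t : Multiset (Fin (m + 1)))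
    simp only [not_not, ne_eq] at h1 ⊢
    exact h1.symm
  have hs := hdec s
  have hs' := hdec s'
  have hn : (s : Multiset (Fin (m + 1))).count (Fin.last m)
      = (s' : Multiset (Fin (m + 1))).count (Fin.last m) := by
    have h1 := congrArg Multiset.card hs
    have h2 := congrArg Multiset.card hs'
    rw [Multiset.card_add, Multiset.card_replicate, Sym.card_coe] at h1 h2
    rw [← hF] at h1
    rw [← hF'] at h2
    omega
  apply Sym.coe_injective
  rw [hs, hs', ← hF, ← hF', hFF, hn]

lemma elL_prod {m : ℕ} (x : Fin (m + 2) → ℂ) (l : List (Fin (m + 2)))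
    (hl : ∀ i ∈ l, i ≠ Fin.last (m + 1)) : elL x (l.map YY).prod = (l.map YY).prod := by
  induction l with
  | nil => simp
  | cons i l ih =>
    rw [List.map_cons, List.prod_cons, map_mul, ih fun j hj => hl j (List.mem_cons_of_mem _ hj)]
    congr 1
    obtain ⟨j, rfl⟩ := Fin.exists_castSucc_eq.2 (hl i List.mem_cons_self)
    exact elL_YY x j

/-- The local lemma. -/
theorem local_dimK {m p : ℕ} {ι : Type*} [Fintype ι] (e0 : ι → ℂ) (he0 : e0 ≠ 0)
    (B0 : ι → MvPolynomial (Fin (m + 1)) ℂ) (h00 : ∑ c, C (e0 c) * B0 c = 0)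
    (U : ι → MvPolynomial (Fin (m + 2)) ℂ)
    (hΦ : ∑ c, rename Sum.inl (U c) * rename Sum.inr (B0 c) ≠ (0 : SS (m + 1)))
    (hdiv : beta (m + 1) ^ (p + 1) ∣ ∑ c, rename Sum.inl (U c) * rename Sum.inr (B0 c)) :
    ∃ x : Fin (m + 2) → ℂ, ∀ S : Submodule ℂ (ι → ℂ), e0 ∈ S →
      (∀ l : List (Fin (m + 2)), l.length ≤ p → (fun c => eval x (dw dX l (U c))) ∈ S) →
      1 + (p + (m + 1)).choose (m + 1) ≤ Module.finrank ℂ S := by
  classical
  set Φ : SS (m + 1) := ∑ c, rename Sum.inl (U c) * rename Sum.inr (B0 c) with hΦdef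
  have hnu : ¬ IsUnit (beta (m + 1)) := by
    intro hu
    have h1 := hu.map (eval (0 : Fin (m + 2) ⊕ Fin (m + 1) → ℂ))
    rw [beta_eq] at h1
    simp at h1
  have hfin : FiniteMultiplicity (beta (m + 1)) Φ := FiniteMultiplicity.of_not_isUnit hnu hΦ
  obtain ⟨χ, hχ, hnd⟩ := hfin.exists_eq_pow_mul_and_not_dvd
  set q := multiplicity (beta (m + 1)) Φ with hq
  have hqp : p + 1 ≤ q := hfin.le_multiplicity_of_pow_dvd hdiv
  obtain ⟨x, y, hx, hxy, hne⟩ := exists_good (Fin.last m) hnd
  rw [Fin.succ_last] at hx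
  -- the pairing of the derivatives
  have hpair : ∀ l : List (Fin (m + 2)), l.length ≤ p →
      ∃ R, ∑ c, C (eval x (dw dX l (U c))) * B0 c = bx x ^ (q - l.length) *
        (C ((q.descFactorial l.length : ℕ) : ℂ) * (l.map YY).prod * subx x χ + bx x * R) := by
    intro l hl
    obtain ⟨R, hR⟩ := dw_beta_pow l q χ (by omega)
    refine ⟨subx x R, ?_⟩
    have h1 := congrArg (subx x) hR
    rw [← hχ, hΦdef, dw_pair, map_sum] at h1
    simp only [map_mul, map_add, map_pow, subx_rename_inl, subx_rename_inr] at h1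
    rw [h1]
    have h2 : subx x (beta (m + 1)) = bx x := subx_beta x
    have h3 : subx x (C ((q.descFactorial l.length : ℕ) : ℂ))
        = C ((q.descFactorial l.length : ℕ) : ℂ) := by
      rw [subx, aeval_C]
      rfl
    rw [h2, h3]
  have hb0 : bx x ≠ 0 := by
    intro h
    have h1 := eval_bx x (0 : Fin (m + 1) → ℂ)
    have h2 := eval_bx x (Pi.single (Fin.last m) 1)
    rw [h, map_zero] at h1 h2
    simp [Pi.single_apply] at h1 h2
    rw [← h1, zero_add] at h2
    exact hx h2.symm
  have hg : elL x (subx x χ) ≠ 0 := by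
    intro h
    apply hne
    rw [← eval_subx, ← eval_elL hx hxy, h, map_zero]
  refine ⟨x, fun S m0 mD => ?_⟩
  set w : Option (Sym (Fin (m + 2)) p) → (ι → ℂ) := fun o =>
    match o with
    | none => e0
    | some s => fun c => eval x (dw dX (wd s) (U c)) with hw
  have hwS : ∀ o, w o ∈ S := by
    intro o
    rcases o with _ | s
    · exact m0
    · exact mD _ (wd_length s)
  have hli : LinearIndependent ℂ w := by
    rw [Fintype.linearIndependent_iff]
    intro co hco
    rw [Fintype.sum_option] at hco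
    have key : ∀ s, co (some s) = 0 := by
      by_contra hcon
      push Not at hcon
      obtain ⟨s1, hs1⟩ := hcon
      obtain ⟨s0, hs0, hmax⟩ := Finset.exists_max_image
        (Finset.univ.filter fun s : Sym (Fin (m + 2)) p => co (some s) ≠ 0)
        (fun s => (wd s).length) ⟨s1, by simp [hs1]⟩
      have hs0' : co (some s0) ≠ 0 := (Finset.mem_filter.1 hs0).2
      set j := (wd s0).length with hj
      have hle : ∀ s, co (some s) ≠ 0 → (wd s).length ≤ j := fun s hs =>
        hmax s (by simp [hs])
      choose R hR using fun s : Sym (Fin (m + 2)) p => hpair (wd s) (wd_length s)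
      have h1 : ∑ s : Sym (Fin (m + 2)) p, C (co (some s)) *
          (∑ c, C (eval x (dw dX (wd s) (U c))) * B0 c) = 0 := by
        have h2 : ∑ c, C ((co none • w none + ∑ s, co (some s) • w (some s)) c) * B0 c
            = C (co none) * (∑ c, C (e0 c) * B0 c) + ∑ s : Sym (Fin (m + 2)) p, C (co (some s)) *
              (∑ c, C (eval x (dw dX (wd s) (U c))) * B0 c) := by
          simp only [Finset.mul_sum]
          rw [Finset.sum_comm, ← Finset.sum_add_distrib]
          refine Finset.sum_congr rfl fun c _ => ?_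
          rw [Pi.add_apply, Pi.smul_apply, Finset.sum_apply, C_add, add_mul, smul_eq_mul, C_mul,
            mul_assoc, map_sum, Finset.sum_mul]
          congr 1
          refine Finset.sum_congr rfl fun s _ => ?_
          rw [Pi.smul_apply, smul_eq_mul, C_mul, mul_assoc]
        rw [hco, h00, mul_zero, zero_add] at h2
        rw [← h2]
        simp
      have h2 : bx x ^ (q - j) * (∑ s : Sym (Fin (m + 2)) p, C (co (some s)) *
          (bx x ^ (j - (wd s).length) * (C ((q.descFactorial (wd s).length : ℕ) : ℂ) *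
            ((wd s).map YY).prod * subx x χ + bx x * R s))) = 0 := by
        rw [← h1, Finset.mul_sum]
        refine Finset.sum_congr rfl fun s _ => ?_
        by_cases hs : co (some s) = 0
        · rw [hs, C_0, zero_mul, zero_mul, mul_zero]
        · rw [hR s]
          have h3 := hle s hs
          have h4 := wd_length s0
          have h5 : q - (wd s).length = (q - j) + (j - (wd s).length) := by omega
          rw [h5, pow_add]
          ring
      have h3 := (mul_eq_zero.1 h2).resolve_left (pow_ne_zero _ hb0)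
      have h4 := congrArg (elL x) h3
      rw [map_sum, map_zero] at h4
      have h5 : ∀ s : Sym (Fin (m + 2)) p, elL x (C (co (some s)) *
          (bx x ^ (j - (wd s).length) * (C ((q.descFactorial (wd s).length : ℕ) : ℂ) *
            ((wd s).map YY).prod * subx x χ + bx x * R s)))
          = (if (wd s).length = j then C (co (some s)) * ((wd s).map YY).prod else 0) *
            (C ((q.descFactorial j : ℕ) : ℂ) * elL x (subx x χ)) := by
        intro s
        have hC : ∀ a : ℂ, elL x (C a) = C a := fun a => by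
          rw [elL, aeval_C]
          rfl
        by_cases hs : co (some s) = 0
        · rw [hs]
          simp
        · have h6 := hle s hs
          simp only [map_mul, map_add, map_pow, elL_bx hx, zero_mul, add_zero, hC]
          by_cases h7 : (wd s).length = j
          · rw [if_pos h7, h7, Nat.sub_self, pow_zero, one_mul, elL_prod x _ (wd_ne_last s)]
            ring
          · rw [if_neg h7, zero_pow (by omega)]
            ring
      simp only [h5] at h4
      rw [← Finset.sum_mul] at h4
      have h6 : C ((q.descFactorial j : ℕ) : ℂ) * elL x (subx x χ) ≠ 0 := by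
        refine mul_ne_zero ?_ hg
        rw [Ne, C_eq_zero, Nat.cast_eq_zero, Nat.descFactorial_eq_zero_iff_lt, not_lt]
        have := wd_length s0
        omega
      have h7 := (mul_eq_zero.1 h4).resolve_right h6
      have h8 := congrArg (coeff (ex (wd s0))) h7
      rw [coeff_sum, coeff_zero, Finset.sum_eq_single s0] at h8
      · rw [if_pos rfl, prod_YY, coeff_C_mul, coeff_monomial, if_pos rfl, mul_one] at h8
        exact hs0' h8
      · intro s _ hs
        by_cases h9 : (wd s).length = j
        · rw [if_pos h9, prod_YY, coeff_C_mul, coeff_monomial, if_neg, mul_zero]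
          intro h10
          exact hs (wd_inj h9 h10)
        · rw [if_neg h9, coeff_zero]
      · intro h
        exact absurd (Finset.mem_univ _) h
    intro o
    rcases o with _ | s
    · have h1 : co none • w none = 0 := by
        rw [← hco, Finset.sum_eq_zero fun s _ => by rw [key s, zero_smul], add_zero]
      exact (smul_eq_zero.1 h1).resolve_right he0
    · exact key s
  have hli2 : LinearIndependent ℂ (fun j => (⟨w j, hwS j⟩ : S)) :=
    LinearIndependent.of_comp S.subtype hli
  have hcard := hli2.fintype_card_le_finrank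
  rw [Fintype.card_option, Sym.card_sym_fin_eq_multichoose, Nat.multichoose_eq] at hcard
  have e1 : m + 2 + p - 1 = p + (m + 1) := by omega
  rw [e1, Nat.choose_symm_add] at hcard
  omega

lemma dw_reverse {A τ : Type*} (D : τ → A → A) (l : List τ) (F : A) :
    l.foldr D F = dw D l.reverse F := by
  unfold dw
  rw [List.foldl_reverse]

/-- Divisibility by `β^(K+1)`: the derivatives of order at most `K` vanish on `β = 0`. -/
lemma dvd_of_perp {m K : ℕ} {ι : Type*} [Fintype ι]
    (U : ι → MvPolynomial (Fin (m + 2)) ℂ) (B : ι → MvPolynomial (Fin (m + 1)) ℂ)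
    (h : ∀ (x : Fin (m + 2) → ℂ) (y : Fin (m + 1) → ℂ), x 0 + ∑ i, x i.succ * y i = 0 →
      ∀ l : List (Fin (m + 2)), l.length ≤ K →
        ∑ c, eval x (dw dX l (U c)) * eval y (B c) = 0)
    (hΦ : ∑ c, rename Sum.inl (U c) * rename Sum.inr (B c) ≠ (0 : SS (m + 1))) :
    beta (m + 1) ^ (K + 1) ∣ ∑ c, rename Sum.inl (U c) * rename Sum.inr (B c) := by
  set Φ : SS (m + 1) := ∑ c, rename Sum.inl (U c) * rename Sum.inr (B c) with hΦdef
  have hnu : ¬ IsUnit (beta (m + 1)) := by
    intro hu
    have h1 := hu.map (eval (0 : Fin (m + 2) ⊕ Fin (m + 1) → ℂ))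
    rw [beta_eq] at h1
    simp at h1
  have hfin : FiniteMultiplicity (beta (m + 1)) Φ := FiniteMultiplicity.of_not_isUnit hnu hΦ
  obtain ⟨χ, hχ, hnd⟩ := hfin.exists_eq_pow_mul_and_not_dvd
  set q := multiplicity (beta (m + 1)) Φ with hq
  by_cases hqK : K + 1 ≤ q
  · rw [hχ]
    exact (pow_dvd_pow _ hqK).mul_right _
  exfalso
  obtain ⟨x, y, hx, hxy, hne⟩ := exists_good (Fin.last m) hnd
  have hlen : (List.replicate q (0 : Fin (m + 2))).length = q := List.length_replicate
  obtain ⟨R, hR⟩ := dw_beta_pow (List.replicate q (0 : Fin (m + 2))) q χ hlen.le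
  have h1 := h x y hxy (List.replicate q 0) (by omega)
  rw [← hχ, hΦdef, dw_pair, hlen, Nat.sub_self, pow_zero, one_mul] at hR
  have h2 := congrArg (eval (Sum.elim x y)) hR
  rw [map_sum] at h2
  have h3 : ∀ c, eval (Sum.elim x y) (rename Sum.inl (dw dX (List.replicate q 0) (U c)) *
      rename Sum.inr (B c)) = eval x (dw dX (List.replicate q 0) (U c)) * eval y (B c) := by
    intro c
    rw [map_mul, eval_rename, eval_rename]
    rfl
  have h4 : eval (Sum.elim x y) (beta (m + 1)) = 0 := by
    rw [beta_eq, ← hxy]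
    simp
  simp only [h3] at h2
  rw [h1, map_add, map_mul, map_mul, map_mul, h4, zero_mul, add_zero, List.map_replicate,
    List.prod_replicate] at h2
  have h5 : (YY (0 : Fin (m + 2)) : MvPolynomial (Fin (m + 1)) ℂ) = 1 := rfl
  rw [h5, one_pow, map_one, map_one, mul_one, eval_C] at h2
  have h6 : ((q.descFactorial q : ℕ) : ℂ) ≠ 0 := by
    rw [Nat.descFactorial_self]
    exact_mod_cast Nat.factorial_ne_zero q
  exact mul_ne_zero h6 hne h2.symm

/-- The local lemma in the form used for the degree bound. -/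
theorem local_dim_k {m K : ℕ} {ι : Type*} [Fintype ι] (hm : 1 ≤ m)
    (U : ι → MvPolynomial (Fin (m + 1)) ℂ) (B : ι → MvPolynomial (Fin m) ℂ) (e0 : ι → ℂ)
    (he0 : e0 ≠ 0) (heB : ∑ c, C (e0 c) * B c = 0)
    (S : (Fin (m + 1) → ℂ) → Submodule ℂ (ι → ℂ)) (heS : ∀ x, e0 ∈ S x)
    (hmem : ∀ x, ∀ l : List (Fin (m + 1)), l.length ≤ K →
      (fun c => eval x (l.foldr (fun i q => pderiv i q) (U c))) ∈ S x)
    (hperp : ∀ x y, x 0 + ∑ i : Fin m, x i.succ * y i = 0 → ∀ v ∈ S x,
      ∑ c, v c * eval y (B c) = 0)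
    (hΦ : ∑ c, rename Sum.inl (U c) * rename Sum.inr (B c)
      ≠ (0 : MvPolynomial (Fin (m + 1) ⊕ Fin m) ℂ)) :
    ∃ x, (K + m).choose m + 1 ≤ Module.finrank ℂ (S x) := by
  obtain ⟨m, rfl⟩ : ∃ m', m = m' + 1 := ⟨m - 1, by omega⟩
  have hmem' : ∀ x, ∀ l : List (Fin (m + 2)), l.length ≤ K →
      (fun c => eval x (dw dX l (U c))) ∈ S x := by
    intro x l hl
    have h1 := hmem x l.reverse (by rwa [List.length_reverse])
    have h2 : ∀ c, l.reverse.foldr (fun i q => pderiv i q) (U c) = dw dX l (U c) := by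
      intro c
      have h3 := dw_reverse (fun (i : Fin (m + 2)) (q : MvPolynomial (Fin (m + 2)) ℂ) => pderiv i q)
        l.reverse (U c)
      rw [List.reverse_reverse] at h3
      exact h3
    simpa only [h2] using h1
  obtain ⟨x, hx⟩ := local_dimK (p := K) e0 he0 B heB U hΦ
    (dvd_of_perp U B (fun x y hxy l hl => hperp x y hxy _ (hmem' x l hl)) hΦ)
  have h1 := hx (S x) (heS x) (hmem' x)
  exact ⟨x, by omega⟩

end Helper64.DG
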