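import Mathlib.Tactic
import Mathlib.Data.Nat.Choose.Basic
import Mathlib.Data.Fin.Tuple.Basic
import Mathlib.Algebra.BigOperators.Fin

/-!
Isoperimetry in N^m (piecewise linear form of Macaulay's theorem) and the chain bound,
for MP_a068eb_an.  The plan is helper35's note (part B).
-/

namespace Helper64.DG

open Finset

/-- `c e i = C(e+i, e)`. -/
def cc (e i : ℕ) : ℚ := ((e + i).choose e : ℕ)

/-- `b e i = C(e+i, e+1)`. -/
def bb (e i : ℕ) : ℚ := ((e + i).choose (e + 1) : ℕ)

theorem cc_nonneg (e i : ℕ) : 0 ≤ cc e i := by unfold cc; positivity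

theorem bb_nonneg (e i : ℕ) : 0 ≤ bb e i := by unfold bb; positivity

theorem cc_succ (e i : ℕ) : cc (e + 1) i = cc e i + bb e i := by
  unfold cc bb
  rw [show e + 1 + i = (e + i) + 1 from by ring, Nat.choose_succ_succ]
  push_cast
  ring

theorem bb_succ (e i : ℕ) : bb e (i + 1) = cc e i + bb e i := by
  unfold cc bb
  rw [show e + (i + 1) = (e + i) + 1 from by ring, Nat.choose_succ_succ]
  push_cast
  ring

theorem bb_zero (e : ℕ) : bb e 0 = 0 := by
  unfold bb
  simp

theorem cc_zero (e : ℕ) : cc e 0 = 1 := by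
  unfold cc
  simp

theorem mul_bb (e i : ℕ) : ((e : ℚ) + 1) * bb e i = i * cc e i := by
  unfold cc bb
  have h := Nat.choose_succ_right_eq (e + i) e
  have h2 : e + i - e = i := by omega
  rw [h2] at h
  have h3 : (((e + i).choose (e + 1) * (e + 1) : ℕ) : ℚ) = (((e + i).choose e * i : ℕ) : ℚ) := by
    exact_mod_cast h
  push_cast at h3
  linarith

/-- difference of the `c`. -/
theorem cc_diff (e i : ℕ) : ((i : ℚ) + 1) * (cc e (i + 1) - cc e i) = e * cc e i := by
  have h1 := mul_bb e (i + 1)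
  have h2 := mul_bb e i
  have h3 := bb_succ e i
  push_cast at h1
  rw [h3] at h1
  linarith

theorem bb_mono (e : ℕ) : Monotone (bb e) := by
  apply monotone_nat_of_le_succ
  intro i
  rw [bb_succ]
  linarith [cc_nonneg e i]

theorem bb_one (e : ℕ) : bb e 1 = 1 := by
  have := bb_succ e 0
  rw [bb_zero, cc_zero] at this
  simpa using this

theorem cc_pos (e i : ℕ) : 1 ≤ cc e i := by
  unfold cc
  have : 0 < (e + i).choose e := Nat.choose_pos (by omega)
  exact_mod_cast this

/-- the affine functions -/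
def AF (e i : ℕ) (x : ℚ) : ℚ := cc e i + e * (x - bb e i) / (i + 1)

theorem AF_mul (e i : ℕ) (x : ℚ) :
    ((i : ℚ) + 1) * AF e i x = ((i : ℚ) + 1) * cc e i + e * (x - bb e i) := by
  unfold AF
  have : ((i : ℚ) + 1) ≠ 0 := by positivity
  field_simp

theorem AF_le_iff (e i : ℕ) (x g : ℚ) :
    AF e i x ≤ g ↔ ((i : ℚ) + 1) * cc e i + e * (x - bb e i) ≤ ((i : ℚ) + 1) * g := by
  rw [← AF_mul]
  have : (0 : ℚ) < (i : ℚ) + 1 := by positivity
  constructor
  · intro h; exact mul_le_mul_of_nonneg_left h this.le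
  · intro h; exact le_of_mul_le_mul_left h this

theorem AF_diff (e i : ℕ) (x : ℚ) :
    AF e i x - AF e (i + 1) x = e * (x - bb e (i + 1)) * (1 / ((i : ℚ) + 1) - 1 / ((i : ℚ) + 2)) := by
  have h0 : ((i : ℚ) + 1) ≠ 0 := by positivity
  have h1 : ((i : ℚ) + 2) ≠ 0 := by positivity
  have h2 : cc e (i + 1) = cc e i + e * cc e i / (i + 1) := by
    have := cc_diff e i
    field_simp
    linarith
  unfold AF
  rw [h2, bb_succ]
  push_cast
  rw [show (i : ℚ) + 1 + 1 = i + 2 from by ring]
  field_simp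
  ring

theorem AF_stepUp (e i : ℕ) (x : ℚ) (h : bb e (i + 1) ≤ x) : AF e (i + 1) x ≤ AF e i x := by
  have h1 := AF_diff e i x
  have h2 : (0 : ℚ) ≤ 1 / ((i : ℚ) + 1) - 1 / ((i : ℚ) + 2) := by
    rw [sub_nonneg]
    apply one_div_le_one_div_of_le <;> [positivity; linarith]
  have h3 : 0 ≤ (e : ℚ) * (x - bb e (i + 1)) * (1 / ((i : ℚ) + 1) - 1 / ((i : ℚ) + 2)) := by
    apply mul_nonneg (mul_nonneg (by positivity) (by linarith)) h2
  linarith

theorem AF_stepDown (e i : ℕ) (x : ℚ) (h : x ≤ bb e (i + 1)) : AF e i x ≤ AF e (i + 1) x := by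
  have h1 := AF_diff e i x
  have h2 : (0 : ℚ) ≤ 1 / ((i : ℚ) + 1) - 1 / ((i : ℚ) + 2) := by
    rw [sub_nonneg]
    apply one_div_le_one_div_of_le <;> [positivity; linarith]
  have h3 : 0 ≤ (e : ℚ) * (bb e (i + 1) - x) * (1 / ((i : ℚ) + 1) - 1 / ((i : ℚ) + 2)) := by
    apply mul_nonneg (mul_nonneg (by positivity) (by linarith)) h2
  have h4 : (e : ℚ) * (bb e (i + 1) - x) * (1 / ((i : ℚ) + 1) - 1 / ((i : ℚ) + 2)) =
    - (e * (x - bb e (i + 1)) * (1 / ((i : ℚ) + 1) - 1 / ((i : ℚ) + 2))) := by ring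
  linarith

theorem AF_up (e : ℕ) (x : ℚ) (i n : ℕ) (h : bb e (i + n) ≤ x) : AF e (i + n) x ≤ AF e i x := by
  induction n with
  | zero => simp
  | succ n ih =>
    have h1 : bb e (i + n) ≤ x := le_trans (bb_mono e (by omega)) h
    exact le_trans (AF_stepUp e (i + n) x h) (ih h1)

theorem AF_down (e : ℕ) (x : ℚ) (i n : ℕ) (h : x ≤ bb e (i + 1)) : AF e i x ≤ AF e (i + n) x := by
  induction n with
  | zero => simp
  | succ n ih =>
    have h1 : x ≤ bb e (i + n + 1) := le_trans h (bb_mono e (by omega))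
    exact le_trans ih (AF_stepDown e (i + n) x h1)

theorem AF_seg (e : ℕ) (x : ℚ) (i : ℕ) (h1 : bb e i ≤ x) (h2 : x ≤ bb e (i + 1)) (i' : ℕ) :
    AF e i x ≤ AF e i' x := by
  rcases le_total i i' with h | h
  · obtain ⟨n, rfl⟩ := Nat.exists_eq_add_of_le h
    exact AF_down e x i n h2
  · obtain ⟨n, rfl⟩ := Nat.exists_eq_add_of_le h
    exact AF_up e x i' n h1

/-- `Q e a g`: the isoperimetric inequality in dimension `e+1`. -/
def Q (e : ℕ) (a g : ℚ) : Prop := ∃ i : ℕ, AF e i a ≤ g

theorem Q.mono {e : ℕ} {a g g' : ℚ} (h : Q e a g) (hg : g ≤ g') : Q e a g' := by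
  obtain ⟨i, hi⟩ := h
  exact ⟨i, hi.trans hg⟩

theorem bb_unbounded (e : ℕ) (x : ℚ) : ∃ i : ℕ, x ≤ bb e (i + 1) := by
  have h : ∀ i : ℕ, (i : ℚ) ≤ bb e i := by
    intro i
    induction i with
    | zero => simp [bb_zero]
    | succ n ih =>
      rw [bb_succ]
      push_cast
      linarith [cc_pos e n]
  obtain ⟨n, hn⟩ := exists_nat_ge x
  exact ⟨n, by
    have := h (n + 1)
    push_cast at this
    linarith⟩

/-- a segment, with strict lower inequality. -/
theorem exists_seg (e : ℕ) (x : ℚ) (hx : 0 < x) :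
    ∃ i : ℕ, bb e i < x ∧ x ≤ bb e (i + 1) := by
  classical
  have h := bb_unbounded e x
  refine ⟨Nat.find h, ?_, Nat.find_spec h⟩
  rcases Nat.eq_zero_or_pos (Nat.find h) with h0 | h0
  · rw [h0, bb_zero]; exact hx
  · have h1 := Nat.find_min h (m := Nat.find h - 1) (by omega)
    have h2 : Nat.find h - 1 + 1 = Nat.find h := by omega
    rw [h2] at h1
    exact not_le.mp h1

theorem Q.seg {e : ℕ} {a g : ℚ} (h : Q e a g) (ha : 0 < a) :
    ∃ i : ℕ, bb e i < a ∧ a ≤ bb e (i + 1) ∧ AF e i a ≤ g := by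
  obtain ⟨i, hi1, hi2⟩ := exists_seg e a ha
  obtain ⟨i', hi'⟩ := h
  exact ⟨i, hi1, hi2, (AF_seg e a i hi1.le hi2 i').trans hi'⟩

theorem AF_mono (e i : ℕ) {x y : ℚ} (h : x ≤ y) : AF e i x ≤ AF e i y := by
  unfold AF
  have h1 : (e : ℚ) * (x - bb e i) / (i + 1) ≤ e * (y - bb e i) / (i + 1) := by
    apply div_le_div_of_nonneg_right _ (by positivity)
    apply mul_le_mul_of_nonneg_left _ (by positivity)
    linarith
  linarith

theorem AF_at (e i : ℕ) : AF e i (bb e i) = cc e i := by
  unfold AF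
  simp

theorem cc_mono (e : ℕ) : Monotone (cc e) := by
  apply monotone_nat_of_le_succ
  intro i
  have h := cc_diff e i
  have h1 : 0 ≤ (e : ℚ) * cc e i := mul_nonneg (by positivity) (cc_nonneg e i)
  have h2 : (0 : ℚ) < (i : ℚ) + 1 := by positivity
  by_contra hc
  push Not at hc
  have h3 : ((i : ℚ) + 1) * (cc e (i + 1) - cc e i) < 0 := mul_neg_of_pos_of_neg h2 (by linarith)
  linarith

theorem AF_raise (e j : ℕ) (L x : ℚ) (h : AF e j L ≤ x) (hx : cc e (j + 1) ≤ x) :
    AF e (j + 1) L ≤ x := by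
  rcases le_total (bb e (j + 1)) L with h1 | h1
  · exact (AF_stepUp e j L h1).trans h
  · exact ((AF_mono e (j + 1) h1).trans (AF_at e (j + 1)).le).trans hx

theorem AF_raise_to (e j n : ℕ) (L x : ℚ) (h : AF e j L ≤ x) (hx : cc e (j + n) ≤ x) :
    AF e (j + n) L ≤ x := by
  induction n with
  | zero => simpa using h
  | succ n ih =>
    have h1 : AF e (j + n) L ≤ x := ih ((cc_mono e (by omega)).trans hx)
    exact AF_raise e (j + n) L x h1 hx

/-- The key inequality. -/
theorem KI (e : ℕ) (a g L B : ℚ) (ha : 0 < a) (hg : 0 ≤ g) (h1 : Q e a g) (hB : a + g ≤ B)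
    (hL : L = 0 ∨ Q (e + 1) L (B - g)) : Q (e + 1) (a + L) B := by
  obtain ⟨i, hi1, hi2, hi3⟩ := h1.seg ha
  rw [AF_le_iff] at hi3
  have hm := mul_bb e i
  have hs := bb_succ e i
  have hc := cc_succ e i
  rcases hL with hL | hL
  · -- L = 0
    refine ⟨i, ?_⟩
    rw [AF_le_iff, hL, hc]
    have h5 : ((e : ℚ) + 2) * bb (e + 1) i = ((e : ℚ) + 1 + i) * bb e i := by
      have h6 := mul_bb (e + 1) i
      push_cast at h6
      rw [hc] at h6
      linarith
    have h7 : bb (e + 1) i ≤ i * a := by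
      rcases Nat.eq_zero_or_pos i with h0 | h0
      · subst h0; rw [bb_zero]; simp
      · have h8 : (1 : ℚ) ≤ i := by exact_mod_cast h0
        have h9 : ((e : ℚ) + 2) * bb (e + 1) i ≤ ((e : ℚ) + 2) * (i * a) := by
          rw [h5]
          have h10 : ((e : ℚ) + 1 + i) * bb e i ≤ ((e : ℚ) + 2) * i * bb e i := by
            apply mul_le_mul_of_nonneg_right _ (bb_nonneg e i)
            nlinarith
          have h11 : ((e : ℚ) + 2) * i * bb e i ≤ ((e : ℚ) + 2) * i * a := by
            apply mul_le_mul_of_nonneg_left hi1.le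
            positivity
          linarith
        exact le_of_mul_le_mul_left h9 (by positivity)
    have h12 : ((i : ℚ) + 1) * (a + g) ≤ ((i : ℚ) + 1) * B :=
      mul_le_mul_of_nonneg_left hB (by positivity)
    push_cast
    nlinarith [h12, h5, h7, hi3]
  · obtain ⟨j, hj⟩ := hL
    rcases Nat.lt_or_ge j i with hji | hji
    · obtain ⟨i', rfl⟩ : ∃ i', i = i' + 1 := ⟨i - 1, by omega⟩
      obtain ⟨n, rfl⟩ := Nat.exists_eq_add_of_le (show j ≤ i' by omega)
      have hb1 : bb e (j + n + 1) = cc (e + 1) (j + n) := by rw [bb_succ, cc_succ]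
      have hj2 : AF (e + 1) (j + n) L ≤ B - g := by
        apply AF_raise_to (e + 1) j n L (B - g) hj
        rw [← hb1]
        linarith
      rw [AF_le_iff] at hj2
      refine ⟨j + n + 1, ?_⟩
      rw [AF_le_iff, hc]
      have hb2 : bb (e + 1) (j + n + 1) = bb e (j + n + 1) + bb (e + 1) (j + n) := by
        rw [bb_succ (e + 1) (j + n), hb1]
      rw [hb2]
      rw [← hb1] at hj2
      push_cast at hj2 hi3 ⊢
      nlinarith [hj2, hi3, hB]
    · refine ⟨j, ?_⟩
      rw [AF_le_iff] at hj ⊢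
      have h13 : ((e : ℚ) + 1) * a ≤ ((i : ℚ) + 1) * g := by
        have h14 : ((i : ℚ) + 1) * cc e i = ((e : ℚ) + 1) * bb e i + cc e i := by linarith
        rw [h14] at hi3
        linarith
      have h15 : ((i : ℚ) + 1) * g ≤ ((j : ℚ) + 1) * g := by
        apply mul_le_mul_of_nonneg_right _ hg
        have : (i : ℚ) ≤ j := by exact_mod_cast hji
        linarith
      push_cast at hj ⊢
      nlinarith [hj, h13, h15]

/-- The slice induction, numerical form. -/
theorem slices (e : ℕ) : ∀ (p : ℕ) (a g : ℕ → ℚ) (G : ℚ), (∀ t, 0 ≤ a t) → (∀ t, 0 ≤ g t) →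
    (∀ t, 0 < a t → Q e (a t) (g t)) →
    (∀ τ, τ < p → ∑ t ∈ range (τ + 1), g t + a τ ≤ G) →
    (∑ t ∈ range p, a t = 0 ∨ Q (e + 1) (∑ t ∈ range p, a t) G) := by
  intro p
  induction p with
  | zero => intro a g G _ _ _ _; left; simp
  | succ p ih =>
    intro a g G ha hg hQ hG
    have h1 := ih (fun t => a (t + 1)) (fun t => g (t + 1)) (G - g 0) (fun t => ha _) (fun t => hg _)
      (fun t => hQ _) (by
        intro τ hτ
        have h2 := hG (τ + 1) (by omega)
        rw [sum_range_succ'] at h2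
        linarith)
    rw [sum_range_succ']
    rcases (ha 0).lt_or_eq with h0 | h0
    · right
      have h3 := hG 0 (by omega)
      simp only [zero_add, sum_range_one] at h3
      have h4 := KI e (a 0) (g 0) (∑ t ∈ range p, a (t + 1)) G h0 (hg 0) (hQ 0 h0) (by linarith) h1
      rw [add_comm (a 0)] at h4
      exact h4
    · rw [← h0]
      rcases h1 with h1 | h1
      · left; rw [h1]; simp
      · right
        rw [add_zero]
        exact h1.mono (by linarith [hg 0])

/-- `A ⊆ B` and `A + e_i ⊆ B` for all `i`. -/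
def IsoPair {m : ℕ} (A B : Finset (Fin m → ℕ)) : Prop :=
  A ⊆ B ∧ ∀ a ∈ A, ∀ i, a + Pi.single i 1 ∈ B

/-- slice of `A` where the first coordinate is `t`. -/
def sl {n : ℕ} (A : Finset (Fin (n + 1) → ℕ)) (t : ℕ) : Finset (Fin n → ℕ) :=
  (A.filter (fun x => x 0 = t)).image Fin.tail

theorem mem_sl {n : ℕ} (A : Finset (Fin (n + 1) → ℕ)) (t : ℕ) (y : Fin n → ℕ) :
    y ∈ sl A t ↔ (Fin.cons t y : Fin (n + 1) → ℕ) ∈ A := by
  unfold sl
  rw [mem_image]
  constructor
  · rintro ⟨x, hx, rfl⟩
    rw [mem_filter] at hx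
    obtain ⟨h1, h2⟩ := hx
    subst h2
    rw [Fin.cons_self_tail]
    exact h1
  · intro h
    refine ⟨Fin.cons t y, ?_, ?_⟩
    · rw [mem_filter]; exact ⟨h, by simp⟩
    · simp

theorem card_sl {n : ℕ} (A : Finset (Fin (n + 1) → ℕ)) (t : ℕ) :
    (sl A t).card = (A.filter (fun x => x 0 = t)).card := by
  unfold sl
  apply card_image_of_injOn
  intro x hx y hy hxy
  rw [mem_coe, mem_filter] at hx hy
  rw [← Fin.cons_self_tail x, ← Fin.cons_self_tail y, hx.2, hy.2, hxy]

theorem card_eq_sum_sl {n : ℕ} (A : Finset (Fin (n + 1) → ℕ)) (P : ℕ) (hP : ∀ x ∈ A, x 0 < P) :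
    A.card = ∑ t ∈ range P, (sl A t).card := by
  simp only [card_sl]
  exact card_eq_sum_card_fiberwise (fun x hx => by
    rw [mem_coe, mem_range]; exact hP x hx)

theorem single_zero_cons {n : ℕ} (t : ℕ) (y : Fin n → ℕ) :
    (Fin.cons t y : Fin (n + 1) → ℕ) + Pi.single 0 1 = Fin.cons (t + 1) y := by
  funext i
  refine Fin.cases ?_ (fun j => ?_) i
  · simp
  · simp [Fin.succ_ne_zero]

theorem single_succ_cons {n : ℕ} (t : ℕ) (y : Fin n → ℕ) (j : Fin n) :
    (Fin.cons t y : Fin (n + 1) → ℕ) + Pi.single j.succ 1 = Fin.cons t (y + Pi.single j 1) := by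
  funext i
  refine Fin.cases ?_ (fun k => ?_) i
  · simp [(Fin.succ_ne_zero j).symm]
  · by_cases h : k = j
    · subst h; simp
    · have h2 : k.succ ≠ j.succ := fun h3 => h (Fin.succ_injective _ h3)
      simp [h]

theorem IsoPair.sl {n : ℕ} {A B : Finset (Fin (n + 1) → ℕ)} (h : IsoPair A B) (t : ℕ) :
    IsoPair (sl A t) (sl B t) := by
  constructor
  · intro y hy
    rw [mem_sl] at hy ⊢
    exact h.1 hy
  · intro y hy i
    rw [mem_sl] at hy ⊢
    rw [← single_succ_cons]
    exact h.2 _ hy _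

theorem IsoPair.sl_succ {n : ℕ} {A B : Finset (Fin (n + 1) → ℕ)} (h : IsoPair A B) (t : ℕ) :
    Helper64.DG.sl A t ⊆ Helper64.DG.sl B (t + 1) := by
  intro y hy
  rw [mem_sl] at hy ⊢
  rw [← single_zero_cons]
  exact h.2 _ hy _

theorem exists_bound {n : ℕ} (B : Finset (Fin (n + 1) → ℕ)) : ∃ P : ℕ, ∀ x ∈ B, x 0 < P := by
  refine ⟨B.sup (fun x => x 0) + 1, fun x hx => ?_⟩
  have := le_sup (f := fun x : Fin (n + 1) → ℕ => x 0) hx
  exact Nat.lt_succ_of_le this

/-- The isoperimetric inequality. -/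
theorem iso (d : ℕ) : ∀ (A B : Finset (Fin (d + 1) → ℕ)), IsoPair A B → A.Nonempty →
    Q d (A.card) ((B.card : ℚ) - A.card) := by
  induction d with
  | zero =>
    intro A B h hA
    refine ⟨0, ?_⟩
    unfold AF cc
    simp only [zero_add, Nat.choose_self, Nat.cast_one, Nat.cast_zero, zero_mul, zero_div, add_zero]
    obtain ⟨x, hx, hmax⟩ := exists_max_image A (fun x => x 0) hA
    have h1 : A ⊂ B := by
      rw [Finset.ssubset_iff_of_subset h.1]
      refine ⟨x + Pi.single 0 1, h.2 x hx 0, fun h2 => ?_⟩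
      have h3 := hmax _ h2
      simp at h3
    have h2 := card_lt_card h1
    have h3 : ((A.card + 1 : ℕ) : ℚ) ≤ B.card := by exact_mod_cast h2
    push_cast at h3
    linarith
  | succ d ih =>
    intro A B h hA
    obtain ⟨P, hP⟩ := exists_bound B
    have hPA : ∀ x ∈ A, x 0 < P := fun x hx => hP x (h.1 hx)
    have hAs := card_eq_sum_sl A P hPA
    have hBs := card_eq_sum_sl B P hP
    have hle : ∀ t, (sl A t).card ≤ (sl B t).card := fun t => card_le_card (h.sl t).1
    have hle2 : ∀ t, (sl A t).card ≤ (sl B (t + 1)).card := fun t => card_le_card (h.sl_succ t)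
    have key := slices d P (fun t => (sl A t).card) (fun t => ((sl B t).card : ℚ) - (sl A t).card)
      ((B.card : ℚ) - A.card) (fun t => by positivity)
      (fun t => by
        have : ((sl A t).card : ℚ) ≤ (sl B t).card := by exact_mod_cast hle t
        simpa using this)
      (fun t ht => by
        apply ih _ _ (h.sl t)
        rw [← card_pos]
        exact_mod_cast ht)
      (by
        intro τ hτ
        -- G = sum over t < P of g_t
        have hG : ((B.card : ℚ) - A.card) =
            ∑ t ∈ range P, (((sl B t).card : ℚ) - (sl A t).card) := by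
          rw [sum_sub_distrib, hAs, hBs]
          push_cast
          ring
        have hlast : (sl A (P - 1)).card = 0 := by
          rw [card_eq_zero, eq_empty_iff_forall_notMem]
          intro y hy
          have h1 := (h.sl_succ (P - 1)) hy
          rw [mem_sl] at h1
          have h2 := hP _ h1
          simp at h2
          omega
        -- telescoping
        have htel : ∀ q, τ + 1 ≤ q → q ≤ P → ((sl A τ).card : ℚ) - (sl A (q - 1)).card ≤
            ∑ t ∈ Ico (τ + 1) q, (((sl B t).card : ℚ) - (sl A t).card) := by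
          intro q hq
          induction q, hq using Nat.le_induction with
          | base => intro _; simp
          | succ q hq ihq =>
            intro hqP
            rw [sum_Ico_succ_top hq]
            have h1 := ihq (by omega)
            have h2 : ((sl A (q - 1)).card : ℚ) ≤ (sl B q).card := by
              have h3 := hle2 (q - 1)
              rw [show q - 1 + 1 = q by omega] at h3
              exact_mod_cast h3
            rw [show q + 1 - 1 = q by omega]
            linarith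
        have h5 := htel P (by omega) le_rfl
        rw [hlast] at h5
        rw [hG, ← sum_range_add_sum_Ico _ (show τ + 1 ≤ P by omega)]
        push_cast at h5 ⊢
        linarith)
    have hcast : (A.card : ℚ) = ∑ t ∈ range P, ((sl A t).card : ℚ) := by
      rw [hAs]; push_cast; rfl
    rw [← hcast] at key
    rcases key with key | key
    · exfalso
      have : A.card = 0 := by exact_mod_cast key
      rw [card_eq_zero] at this
      exact hA.ne_empty this
    · exact key

theorem numF1 (d j : ℕ) (a G : ℚ) (ha : 0 < a) (h : Q d a G) (hj : a ≤ bb d (j + 1)) :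
    ((d : ℚ) + 1) * a ≤ ((j : ℚ) + 1) * G := by
  obtain ⟨i, hi1, hi2, hi3⟩ := h.seg ha
  have hij : i ≤ j := by
    by_contra hc
    push Not at hc
    have h1 : bb d (j + 1) ≤ bb d i := bb_mono d (by omega)
    linarith
  rw [AF_le_iff] at hi3
  have hm := mul_bb d i
  rw [bb_succ] at hi2
  have h1 : ((d : ℚ) + 1) * a ≤ ((i : ℚ) + 1) * G := by linarith
  have hG : 0 ≤ G := by
    by_contra hc
    push Not at hc
    have h2 : ((i : ℚ) + 1) * G < 0 := mul_neg_of_pos_of_neg (by positivity) hc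
    have h3 : 0 ≤ ((d : ℚ) + 1) * a := by positivity
    linarith
  have h4 : ((i : ℚ) + 1) * G ≤ ((j : ℚ) + 1) * G := by
    apply mul_le_mul_of_nonneg_right _ hG
    have : (i : ℚ) ≤ j := by exact_mod_cast hij
    linarith
  linarith

theorem numF2 (d K : ℕ) (a G : ℚ) (ha : 0 < a) (h : Q d a G) (hK : a + G ≤ bb d (K + 1)) :
    a ≤ bb d K := by
  obtain ⟨i, hi1, hi2, hi3⟩ := h.seg ha
  by_contra hc
  push Not at hc
  have hiK : K ≤ i := by
    by_contra hc2
    push Not at hc2
    have h1 : bb d (i + 1) ≤ bb d K := bb_mono d (by omega)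
    linarith
  have h2 : cc d i ≤ AF d i a := by
    rw [← AF_at]
    exact AF_mono d i hi1.le
  have h3 : bb d (K + 1) ≤ bb d (i + 1) := bb_mono d (by omega)
  rw [bb_succ d i] at h3
  linarith

/-- (F1). -/
theorem F1 {d : ℕ} (j : ℕ) {A B : Finset (Fin (d + 1) → ℕ)} (h : IsoPair A B)
    (hA : A.card ≤ (d + 1 + j).choose (d + 1)) : (d + 2 + j) * A.card ≤ (1 + j) * B.card := by
  rcases A.eq_empty_or_nonempty with h0 | h0
  · subst h0; simp
  · have h1 := iso d A B h h0
    have h2 : (0 : ℚ) < A.card := by exact_mod_cast card_pos.mpr h0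
    have h3 : (A.card : ℚ) ≤ bb d (j + 1) := by
      unfold bb
      rw [show d + (j + 1) = d + 1 + j by ring]
      exact_mod_cast hA
    have h4 := numF1 d j _ _ h2 h1 h3
    have h5 : (((d + 2 + j) * A.card : ℕ) : ℚ) ≤ (((1 + j) * B.card : ℕ) : ℚ) := by
      push_cast
      linarith
    exact_mod_cast h5

/-- (F2). -/
theorem F2 {d : ℕ} (K : ℕ) {A B : Finset (Fin (d + 1) → ℕ)} (h : IsoPair A B)
    (hB : B.card ≤ (d + 1 + K).choose (d + 1)) : A.card ≤ (d + K).choose (d + 1) := by
  rcases A.eq_empty_or_nonempty with h0 | h0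
  · subst h0; simp
  · have h1 := iso d A B h h0
    have h2 : (0 : ℚ) < A.card := by exact_mod_cast card_pos.mpr h0
    have h3 : (A.card : ℚ) + ((B.card : ℚ) - A.card) ≤ bb d (K + 1) := by
      unfold bb
      rw [show d + (K + 1) = d + 1 + K by ring, add_sub_cancel]
      exact_mod_cast hB
    have h4 := numF2 d K _ _ h2 h1 h3
    unfold bb at h4
    exact_mod_cast h4

/-- (F3): a chain. -/
theorem F3 {d : ℕ} : ∀ (K : ℕ) (L : ℕ → ℕ) (A B : ℕ → Finset (Fin (d + 1) → ℕ)),
    (∀ k, IsoPair (A k) (B k)) → (∀ k, (A k).card = L (k + 1)) → (∀ k, (B k).card = L k) →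
    L 0 ≤ (d + 1 + K).choose (d + 1) →
    ∀ p, (d + 2) * ∑ k ∈ range p, L k ≤ (d + 2 + K) * L 0 := by
  have hmono : ∀ (L : ℕ → ℕ) (A B : ℕ → Finset (Fin (d + 1) → ℕ)),
    (∀ k, IsoPair (A k) (B k)) → (∀ k, (A k).card = L (k + 1)) → (∀ k, (B k).card = L k) →
    ∀ k, L (k + 1) ≤ L k := by
    intro L A B h hA hB k
    rw [← hA, ← hB]
    exact card_le_card (h k).1
  intro K
  induction K with
  | zero =>
    intro L A B h hA hB h0 p
    have h1 : L 1 = 0 := by
      have h2 := F2 0 (h 0) (by rw [hB]; exact h0)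
      rw [hA] at h2
      simpa using h2
    have h3 : ∀ k, L (k + 1) = 0 := by
      intro k
      induction k with
      | zero => exact h1
      | succ k ih =>
        have := hmono L A B h hA hB (k + 1)
        omega
    rcases p with _ | p
    · simp
    · rw [sum_range_succ']
      simp [h3]
  | succ K ih =>
    intro L A B h hA hB h0 p
    rcases p with _ | p
    · simp
    · rw [sum_range_succ']
      have h2 := F2 (K + 1) (h 0) (by rw [hB]; exact h0)
      rw [hA] at h2
      have h3 : d + (K + 1) = d + 1 + K := by ring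
      rw [h3] at h2
      have h4 := F1 K (h 0) (by rw [hA]; exact h2)
      rw [hA, hB] at h4
      have h5 := ih (fun k => L (k + 1)) (fun k => A (k + 1)) (fun k => B (k + 1))
        (fun k => h (k + 1)) (fun k => hA (k + 1)) (fun k => hB (k + 1)) h2 p
      simp only [zero_add] at h5 h4
      nlinarith [h5, h4]

/-- (B1): the chain bound in the form used for MP_a068eb_an. -/
theorem chain_bound (M K : ℕ) (T : ℕ → Finset (Fin (M + 1) → ℕ))
    (hT : ∀ k, ∀ μ ∈ T (k + 1), ∃ ν, μ = ν + Pi.single 0 1 ∧ ν ∈ T k ∧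
      ∀ i, ν + Pi.single i 1 ∈ T k)
    (h0 : (T 0).card ≤ (M + 1 + K).choose (M + 1)) :
    ∀ p, (M + 2) * ∑ k ∈ range p, (T k).card ≤ (M + 2 + K) * (T 0).card := by
  classical
  choose! φ hφ using hT
  have hinj : ∀ k, Set.InjOn (φ k) (T (k + 1) : Set (Fin (M + 1) → ℕ)) := by
    intro k x hx y hy hxy
    rw [mem_coe] at hx hy
    rw [(hφ k x hx).1, (hφ k y hy).1, hxy]
  refine F3 K (fun k => (T k).card) (fun k => (T (k + 1)).image (φ k)) T ?_ ?_ (fun k => rfl) h0
  · intro k
    constructor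
    · intro ν hν
      rw [mem_image] at hν
      obtain ⟨μ, hμ, rfl⟩ := hν
      exact (hφ k μ hμ).2.1
    · intro ν hν i
      rw [mem_image] at hν
      obtain ⟨μ, hμ, rfl⟩ := hν
      exact (hφ k μ hμ).2.2 i
  · intro k
    exact card_image_of_injOn (hinj k)

end Helper64.DG
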