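import Pool.Agent.Helper38.D.Proper

/-!
Transfer of a degree bound for coprime families of polynomials with the polarised sphere identity
to proper rational maps between balls.
-/

namespace Helper64.DG

open Helper38.BallD Helper38.Ball MvPolynomial Metric

theorem degree_transfer {n N B : ℕ} (hn : 1 ≤ n) {f : CSp n → CSp N}
    (hf : IsProper f) (hfr : IsRational f)
    (hB : ∀ (P : Fin (N + 1) → MvPolynomial (Fin n) ℂ) (d : ℕ), (∀ c, (P c).totalDegree ≤ d) →
      (∃ c, (P c).totalDegree = d ∧ P c ≠ 0) → (∀ g, (∀ c, g ∣ P c) → g.totalDegree = 0) →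
      (∀ z ω : Fin n → ℂ, ∑ k, z k * ω k = 1 →
        ∑ c, sg N c * eval z (P c) * eval ω (map (starRingEnd ℂ) (P c)) = 0) →
      (∃ c c', G 0 (P c) * G 1 (P c') - G 0 (P c') * G 1 (P c) ≠ 0) → d ≤ B) :
    DegreeLE f B := by
  classical
  have hex := exists_degreeLE hfr
  set d := Nat.find hex with hd
  have hdspec : DegreeLE f d := Nat.find_spec hex
  have hdmin : ∀ d' < d, ¬ DegreeLE f d' := fun d' h => Nat.find_min hex h
  have hmono : ∀ {a b : ℕ}, a ≤ b → DegreeLE f a → DegreeLE f b := by
    rintro a b hab ⟨p, q, hq, hqd, hpd, hpq⟩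
    exact ⟨p, q, hq, hqd.trans hab, fun j => (hpd j).trans hab, hpq⟩
  suffices hle : d ≤ B from hmono hle hdspec
  by_cases hd0 : d = 0
  · rw [hd0]; exact Nat.zero_le _
  obtain ⟨p, q, hq, hqd, hpd, hpq'⟩ := hdspec
  have hpq : ∀ z ∈ ball (0 : CSp n) 1, ∀ j, ev q z * f z j = ev (p j) z := hpq'
  have hP : ∀ c, (fam p q c).totalDegree ≤ d := by
    intro c
    refine Fin.cases ?_ (fun j => ?_) c
    · exact hqd
    · exact hpd j
  have htop : ∃ c, (fam p q c).totalDegree = d ∧ fam p q c ≠ 0 := by
    by_contra hcon
    push Not at hcon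
    have hlt : ∀ c, (fam p q c).totalDegree ≤ d - 1 := by
      intro c
      have h1 := hP c
      by_contra h2
      have h3 : (fam p q c).totalDegree = d := by omega
      have h4 := hcon c h3
      rw [h4, totalDegree_zero] at h3
      omega
    exact hdmin (d - 1) (by omega) ⟨p, q, hq, hlt 0, fun j => hlt j.succ, hpq'⟩
  have hcop : ∀ g, (∀ c, g ∣ fam p q c) → g.totalDegree = 0 := by
    intro g hg
    by_contra hgd
    choose P' hP' using hg
    have hg0 : g ≠ 0 := by
      rintro rfl
      simp at hgd
    have hdeg : ∀ c, (P' c).totalDegree ≤ d - 1 := by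
      intro c
      by_cases h0 : P' c = 0
      · rw [h0, totalDegree_zero]; exact Nat.zero_le _
      · have h1 := hP c
        rw [hP' c, totalDegree_mul_of_isDomain hg0 h0] at h1
        omega
    have hq' : q = g * P' 0 := hP' 0
    have hp' : ∀ j, p j = g * P' j.succ := fun j => hP' j.succ
    refine hdmin (d - 1) (by omega) ⟨fun j => P' j.succ, P' 0, ?_, hdeg 0, fun j => hdeg _, ?_⟩
    · intro h0
      rw [h0, mul_zero] at hq'
      exact hq hq'
    · intro z hz j
      have h1 := cancel_on_ball hg0 (h := fun z => ev (P' 0) z * f z j - ev (P' j.succ) z)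
        (fun w hw => by
          have hc1 : ContinuousAt f w := (hf.holo w hw).continuousAt
          have hc2 : ContinuousAt (fun z => f z j) w := by
            have : Continuous fun v : CSp N => v j := by fun_prop
            exact this.continuousAt.comp hc1
          exact ((ev_continuous _).continuousAt.mul hc2).sub (ev_continuous _).continuousAt)
        (fun w hw => by
          have h2 := hpq w hw j
          rw [hq', hp' j] at h2
          simp only [ev, map_mul] at h2 ⊢
          linear_combination h2) z hz
      exact sub_eq_zero.1 h1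
  exact hB (fam p q) d hP htop hcop (polarized hf hpq) (nonconst (by omega) hf hq hpq)

end Helper64.DG
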