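import Pool.Agent.Helper38.BallPrinciple
import Pool.Agent.Helper64.DG.Transfer

/-!
MP_a068eb_an: from the polynomial inequality `n d ≤ (n + K) r`, `r = (N - 1) / (n - 1)`, valid for
`r ≤ C(n - 1 + K, K)`, to the bounds for the maximal degree.
-/

namespace Helper64.DG

open Helper38.BallD Helper38.Ball MvPolynomial Metric Nat

/-- The inequality for families of polynomials (helper35's `bound_ratio`). -/
def BoundRatio (M : ℕ) : Prop :=
  ∀ (N K d : ℕ) (P : Fin (N + 1) → MvPolynomial (Fin (M + 2)) ℂ),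
    (∀ c, (P c).totalDegree ≤ d) → (∃ c, (P c).totalDegree = d ∧ P c ≠ 0) →
    (∀ g, (∀ c, g ∣ P c) → g.totalDegree = 0) →
    (∀ z ω : Fin (M + 2) → ℂ, ∑ k, z k * ω k = 1 →
      ∑ c, sg N c * eval z (P c) * eval ω (map (starRingEnd ℂ) (P c)) = 0) →
    (∃ c c', G 0 (P c) * G 1 (P c') - G 0 (P c') * G 1 (P c) ≠ 0) →
    (N - 1) / (M + 1) ≤ (M + 1 + K).choose (M + 1) →
    (M + 2) * d ≤ (M + 2 + K) * ((N - 1) / (M + 1))

theorem degreeLE_of_degree_le {n N : ℕ} {f : CSp n → CSp N} {D : ℕ} (h : degree f ≤ D) :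
    DegreeLE f D := by
  by_contra hcon
  have h1 : ((D + 1 : ℕ) : ℕ∞) ≤ degree f := by
    unfold degree
    refine le_iInf fun d => le_iInf fun hd => ?_
    rw [Nat.cast_le]
    by_contra hlt
    push Not at hlt
    obtain ⟨p, q, hq, hqd, hpd, hpq⟩ := hd
    exact hcon ⟨p, q, hq, hqd.trans (by omega), fun j => (hpd j).trans (by omega), hpq⟩
  have h2 := h1.trans h
  rw [Nat.cast_le] at h2
  omega

theorem jet_le_maxDegree (n N : ℕ) : jetNumber n N ≤ maxDegree n N := by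
  induction h : maxDegree n N using ENat.recTopCoe with
  | top => exact le_top
  | coe D =>
    have hd : Determined n N D := by
      apply determined_of_degree
      intro f hf hfr
      apply degreeLE_of_degree_le
      rw [← h]
      unfold maxDegree
      exact le_iSup₂_of_le f ⟨hf, hfr⟩ le_rfl
    unfold jetNumber
    exact iInf₂_le D hd

/-- A bound for all coprime families gives a bound for the maximal degree. -/
theorem maxDegree_le_of {n N B : ℕ} (hn : 1 ≤ n)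
    (hB : ∀ (P : Fin (N + 1) → MvPolynomial (Fin n) ℂ) (d : ℕ), (∀ c, (P c).totalDegree ≤ d) →
      (∃ c, (P c).totalDegree = d ∧ P c ≠ 0) → (∀ g, (∀ c, g ∣ P c) → g.totalDegree = 0) →
      (∀ z ω : Fin n → ℂ, ∑ k, z k * ω k = 1 →
        ∑ c, sg N c * eval z (P c) * eval ω (map (starRingEnd ℂ) (P c)) = 0) →
      (∃ c c', G 0 (P c) * G 1 (P c') - G 0 (P c') * G 1 (P c) ≠ 0) → d ≤ B) :
    maxDegree n N ≤ (B : ℕ∞) := by
  unfold maxDegree
  refine iSup₂_le fun f hf => ?_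
  unfold degree
  exact iInf₂_le _ (degree_transfer hn hf.1 hf.2 hB)

theorem maxDegree_ratio {M : ℕ} (hbr : BoundRatio M) {N K : ℕ}
    (hr : (N - 1) / (M + 1) ≤ (M + 1 + K).choose K) :
    maxDegree (M + 2) N ≤ (((M + 2 + K) * ((N - 1) / (M + 1)) / (M + 2) : ℕ) : ℕ∞) := by
  refine maxDegree_le_of (by omega) ?_
  intro P d hP htop hcop hK hnc
  have h1 : (M + 1 + K).choose K = (M + 1 + K).choose (M + 1) := by
    rw [Nat.choose_symm_add]
  rw [h1] at hr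
  have h2 := hbr N K d P hP htop hcop hK hnc hr
  rw [Nat.le_div_iff_mul_le (by omega), mul_comm]
  exact h2

theorem power_ratio {M : ℕ} (hbr : BoundRatio M) {N : ℕ} (hN : 1 ≤ N) :
    ∃ D : ℕ, maxDegree (M + 2) N ≤ D ∧ (D : ℝ) ≤
      ((N : ℝ) - 1) / ((M : ℝ) + 1) + (M ! : ℝ) ^ (1 / ((M : ℝ) + 1)) /
        (((M : ℝ) + 2) * ((M : ℝ) + 1)) * ((N : ℝ) - 1) ^ (1 + 1 / ((M : ℝ) + 1)) := by
  set r := (N - 1) / (M + 1) with hr
  have hM1 : (0 : ℝ) < (M : ℝ) + 1 := by positivity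
  have hM2 : (0 : ℝ) < (M : ℝ) + 2 := by positivity
  have hr0 : (0 : ℝ) ≤ r := Nat.cast_nonneg _
  have hN1 : (0 : ℝ) ≤ (N : ℝ) - 1 := by
    have : (1 : ℝ) ≤ N := by exact_mod_cast hN
    linarith
  have hcN : ((N - 1 : ℕ) : ℝ) = (N : ℝ) - 1 := by
    rw [Nat.cast_sub hN, Nat.cast_one]
  have hrN : (r : ℝ) ≤ ((N : ℝ) - 1) / ((M : ℝ) + 1) := by
    have h1 : (r : ℝ) ≤ ((N - 1 : ℕ) : ℝ) / ((M + 1 : ℕ) : ℝ) := Nat.cast_div_le
    rw [hcN] at h1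
    push_cast at h1
    exact h1
  set x : ℝ := (((M + 1)! : ℝ) * r) ^ (1 / ((M : ℝ) + 1)) with hx
  have hx0 : 0 ≤ x := by positivity
  set K := ⌊x⌋₊ with hK
  have hKx : (K : ℝ) ≤ x := Nat.floor_le hx0
  have hxK : x ≤ ((K + 1 : ℕ) : ℝ) := by
    rw [Nat.cast_add, Nat.cast_one]
    exact (Nat.lt_floor_add_one x).le
  have hpow : x ^ (M + 1) = ((M + 1)! : ℝ) * r := by
    rw [hx, ← Real.rpow_natCast, ← Real.rpow_mul (by positivity)]
    push_cast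
    rw [one_div_mul_cancel hM1.ne', Real.rpow_one]
  have hle : (M + 1)! * r ≤ (K + 1) ^ (M + 1) := by
    have h1 : x ^ (M + 1) ≤ ((K + 1 : ℕ) : ℝ) ^ (M + 1) := pow_le_pow_left₀ hx0 hxK _
    rw [hpow] at h1
    exact_mod_cast h1
  have hch : r ≤ (M + 1 + K).choose K := by
    have h1 : (K + 1) ^ (M + 1) ≤ (M + 1)! * (K + (M + 1)).choose (M + 1) := by
      have h2 := Nat.pow_le_choose (α := ℚ) (M + 1) (K + (M + 1))
      have e4 : K + (M + 1) + 1 - (M + 1) = K + 1 := by omega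
      rw [e4, div_le_iff₀' (by exact_mod_cast Nat.factorial_pos (M + 1))] at h2
      exact_mod_cast h2
    have h2 := Nat.le_of_mul_le_mul_left (hle.trans h1) (Nat.factorial_pos (M + 1))
    rwa [← Nat.choose_symm_add, add_comm K (M + 1)] at h2
  refine ⟨(M + 2 + K) * r / (M + 2), maxDegree_ratio hbr hch, ?_⟩
  have h1 : (((M + 2 + K) * r / (M + 2) : ℕ) : ℝ) ≤
      (((M + 2 + K) * r : ℕ) : ℝ) / ((M + 2 : ℕ) : ℝ) := Nat.cast_div_le
  have h2 : (((M + 2 + K) * r : ℕ) : ℝ) / ((M + 2 : ℕ) : ℝ) = r + K * r / ((M : ℝ) + 2) := by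
    push_cast
    field_simp
  have h3 : (K : ℝ) * r / ((M : ℝ) + 2) ≤ x * r / ((M : ℝ) + 2) := by
    apply div_le_div_of_nonneg_right _ hM2.le
    exact mul_le_mul_of_nonneg_right hKx hr0
  -- x r <= (M+1)!^(1/(M+1)) ((N-1)/(M+1))^(1+1/(M+1))
  have he : (0 : ℝ) < 1 + 1 / ((M : ℝ) + 1) := by positivity
  have h4 : x * r = ((M + 1)! : ℝ) ^ (1 / ((M : ℝ) + 1)) * (r : ℝ) ^ (1 + 1 / ((M : ℝ) + 1)) := by
    rcases hr0.eq_or_lt with h0 | h0
    · rw [← h0, mul_zero, Real.zero_rpow he.ne', mul_zero]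
    · rw [hx, Real.mul_rpow (by positivity) hr0, Real.rpow_add h0, Real.rpow_one]
      ring
  have h5 : (r : ℝ) ^ (1 + 1 / ((M : ℝ) + 1)) ≤
      (((N : ℝ) - 1) / ((M : ℝ) + 1)) ^ (1 + 1 / ((M : ℝ) + 1)) :=
    Real.rpow_le_rpow hr0 hrN he.le
  have h6 : ((M + 1)! : ℝ) ^ (1 / ((M : ℝ) + 1)) = ((M : ℝ) + 1) ^ (1 / ((M : ℝ) + 1)) *
      (M ! : ℝ) ^ (1 / ((M : ℝ) + 1)) := by
    rw [Nat.factorial_succ]
    push_cast
    rw [Real.mul_rpow hM1.le (by positivity)]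
  have h7 : (((N : ℝ) - 1) / ((M : ℝ) + 1)) ^ (1 + 1 / ((M : ℝ) + 1)) =
      ((N : ℝ) - 1) ^ (1 + 1 / ((M : ℝ) + 1)) /
        (((M : ℝ) + 1) * ((M : ℝ) + 1) ^ (1 / ((M : ℝ) + 1))) := by
    rw [Real.div_rpow hN1 hM1.le, Real.rpow_add hM1, Real.rpow_one]
  have hp : (0 : ℝ) < ((M : ℝ) + 1) ^ (1 / ((M : ℝ) + 1)) := Real.rpow_pos_of_pos hM1 _
  calc (((M + 2 + K) * r / (M + 2) : ℕ) : ℝ) ≤ r + K * r / ((M : ℝ) + 2) := h1.trans h2.le
    _ ≤ ((N : ℝ) - 1) / ((M : ℝ) + 1) + x * r / ((M : ℝ) + 2) := _root_.add_le_add hrN h3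
    _ ≤ ((N : ℝ) - 1) / ((M : ℝ) + 1) + (((M + 1)! : ℝ) ^ (1 / ((M : ℝ) + 1)) *
        (((N : ℝ) - 1) / ((M : ℝ) + 1)) ^ (1 + 1 / ((M : ℝ) + 1))) / ((M : ℝ) + 2) := by
      rw [h4]
      apply _root_.add_le_add le_rfl
      apply div_le_div_of_nonneg_right _ hM2.le
      exact mul_le_mul_of_nonneg_left h5 (by positivity)
    _ = _ := by
      rw [h6, h7]
      field_simp

end Helper64.DG
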